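import Pool.Agent.H5.RPG.Stmts

/-! Row LRG of board rpg: if the graph is not bad, the attractors are large. -/

namespace Pool.RPG

open Classical in
theorem lrg_thm (h1 : RCLStmt) (h2 : SNKStmt) : LRGStmt := by
  intro n d δ κ i o e s hκ hn hδ hbad
  obtain ⟨hKR, hcl, -, -⟩ := h1 (Fin n) (Fin d) i o e s ∅
  by_contra hlt
  rw [not_le] at hlt
  set Z := Finset.univ.filter fun v => v ∉ RS i o e s ∅ with hZ
  set O := Finset.univ.filter fun v : Fin n => o v = i with hO
  set E := Finset.univ.filter fun v : Fin n => o v = i ∧ e v = i with hE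
  have hκn : 0 ≤ κ * n := by positivity
  have hsucc : ∀ v, v ∈ Z → o v = i → ∀ j, s v j ∈ Z := by
    intro v hv ho j
    rw [hZ, Finset.mem_filter] at hv ⊢
    refine ⟨Finset.mem_univ _, fun hj => hv.2 (hcl v (by simp) ?_)⟩
    unfold Pre
    rw [if_pos ho]
    exact ⟨j, hj⟩
  have hun : ∀ X Y : Finset (Fin n), (X.card : ℝ) + Y.card ≤ n + (X ∩ Y).card := by
    intro X Y
    have hu : (X ∪ Y).card ≤ n := by simpa using Finset.card_le_univ (X ∪ Y)
    have h3 := Finset.card_union_add_card_inter X Y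
    have h4 : X.card + Y.card ≤ n + (X ∩ Y).card := by omega
    exact_mod_cast h4
  have hA : κ * n < ((Z ∩ O).card : ℝ) := by
    have := hun Z O
    nlinarith
  by_cases hZc : (Z.card : ℝ) ≤ (1 - κ) * n
  · refine hbad ⟨Z ∩ O, Z, hA.le, hZc, fun v hv j => ?_⟩
    have hv' := Finset.mem_inter.1 hv
    exact hsucc v hv'.1 (Finset.mem_filter.1 hv'.2).2 j
  · rw [not_le] at hZc
    have hBc : 2 * (κ * n) + 2 < ((Z ∩ E).card : ℝ) := by
      have := hun Z E
      nlinarith
    obtain ⟨B₁, hB₁, hcard, hno⟩ := h2 (Fin n) (Fin d) s (Z ∩ E) (by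
      intro S hS hne
      by_contra hcon
      push Not at hcon
      obtain ⟨v, hv⟩ := hne
      have hvZ := Finset.mem_inter.1 (hS hv)
      have h5 := hvZ.1
      rw [hZ, Finset.mem_filter] at h5
      refine h5.2 (hKR ⟨↑S, Finset.mem_coe.2 hv, fun u hu => ?_⟩)
      have huE := (Finset.mem_inter.1 (hS (Finset.mem_coe.1 hu))).2
      rw [hE, Finset.mem_filter] at huE
      obtain ⟨j, hj⟩ := hcon u (Finset.mem_coe.1 hu)
      exact ⟨by simp, huE.2.1, huE.2.2, j, Finset.mem_coe.2 hj⟩) ⌈κ * n⌉₊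
      (by
        rw [Nat.ceil_le]
        linarith)
    have hc1 : κ * n ≤ (B₁.card : ℝ) := by
      rw [hcard]
      exact Nat.le_ceil _
    have hc2 : (B₁.card : ℝ) < κ * n + 1 := by
      rw [hcard]
      exact Nat.ceil_lt_add_one hκn
    have hd : ((Z ∩ E) \ B₁).card + B₁.card = (Z ∩ E).card :=
      Finset.card_sdiff_add_card_eq_card hB₁
    have hd' : (((Z ∩ E) \ B₁).card : ℝ) + B₁.card = (Z ∩ E).card := by exact_mod_cast hd
    have hw : (Finset.univ \ ((Z ∩ E) \ B₁)).card + ((Z ∩ E) \ B₁).card = n := by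
      have := Finset.card_sdiff_add_card_eq_card (Finset.subset_univ ((Z ∩ E) \ B₁))
      simpa using this
    have hw' : ((Finset.univ \ ((Z ∩ E) \ B₁)).card : ℝ) + ((Z ∩ E) \ B₁).card = n := by
      exact_mod_cast hw
    refine hbad ⟨B₁, Finset.univ \ ((Z ∩ E) \ B₁), hc1, by nlinarith, fun v hv j => ?_⟩
    exact Finset.mem_sdiff.2 ⟨Finset.mem_univ _, hno v hv j⟩

end Pool.RPG
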